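import Mathlib
import Pool.Agent.MP_da2089_gt.Core

set_option autoImplicit false

namespace Pool.Agent.Results.MP_da2089_gt.ProdEmuBounded

open Set Pool.Agent.MP_da2089_gt

/-- A ballean (coarse structure) on `X`: a family of entourages containing the diagonal, closed
under subsets, finite unions, inverses and composition, and covering `X × X`. -/
structure Ballean (X : Type*) where
  ent : Set (Set (X × X))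
  diag_mem : {p : X × X | p.1 = p.2} ∈ ent
  subset_mem : ∀ E F : Set (X × X), F ∈ ent → E ⊆ F → E ∈ ent
  union_mem : ∀ E ∈ ent, ∀ F ∈ ent, E ∪ F ∈ ent
  inv_mem : ∀ E ∈ ent, {p : X × X | (p.2, p.1) ∈ E} ∈ ent
  comp_mem : ∀ E ∈ ent, ∀ F ∈ ent, {p : X × X | ∃ z, (p.1, z) ∈ E ∧ (z, p.2) ∈ F} ∈ ent
  sUnion_eq : ⋃₀ ent = univ

/-- The ball `E[x]`. -/
def ball {X : Type*} (E : Set (X × X)) (x : X) : Set X := {y | (x, y) ∈ E}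

/-- A set is bounded if it lies in some ball. -/
def Ballean.Bdd {X : Type*} (𝓧 : Ballean X) (B : Set X) : Prop :=
  ∃ E ∈ 𝓧.ent, ∃ x, B ⊆ ball E x

/-- The product ballean. -/
def Ballean.prod {X Y : Type*} (𝓧 : Ballean X) (𝓨 : Ballean Y) : Ballean (X × Y) where
  ent := {G | ∃ E ∈ 𝓧.ent, ∃ F ∈ 𝓨.ent,
    G ⊆ {p : (X × Y) × (X × Y) | (p.1.1, p.2.1) ∈ E ∧ (p.1.2, p.2.2) ∈ F}}
  diag_mem := ⟨_, 𝓧.diag_mem, _, 𝓨.diag_mem, fun p hp =>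
    ⟨congrArg Prod.fst (show p.1 = p.2 from hp), congrArg Prod.snd (show p.1 = p.2 from hp)⟩⟩
  subset_mem := fun _ _ ⟨E, hE, F, hF, h⟩ h' => ⟨E, hE, F, hF, h'.trans h⟩
  union_mem := fun _ ⟨E, hE, F, hF, h⟩ _ ⟨E', hE', F', hF', h'⟩ =>
    ⟨E ∪ E', 𝓧.union_mem E hE E' hE', F ∪ F', 𝓨.union_mem F hF F' hF', fun _ hp =>
      hp.elim (fun hp => ⟨Or.inl (h hp).1, Or.inl (h hp).2⟩)
        (fun hp => ⟨Or.inr (h' hp).1, Or.inr (h' hp).2⟩)⟩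
  inv_mem := fun _ ⟨E, hE, F, hF, h⟩ =>
    ⟨_, 𝓧.inv_mem E hE, _, 𝓨.inv_mem F hF, fun _ hp => h hp⟩
  comp_mem := fun _ ⟨E, hE, F, hF, h⟩ _ ⟨E', hE', F', hF', h'⟩ =>
    ⟨_, 𝓧.comp_mem E hE E' hE', _, 𝓨.comp_mem F hF F' hF', fun _ ⟨z, hz, hz'⟩ =>
      ⟨⟨z.1, (h hz).1, (h' hz').1⟩, ⟨z.2, (h hz).2, (h' hz').2⟩⟩⟩
  sUnion_eq := eq_univ_of_forall fun p => by
    obtain ⟨E, hE, hp⟩ : (p.1.1, p.2.1) ∈ ⋃₀ 𝓧.ent := 𝓧.sUnion_eq ▸ mem_univ _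
    obtain ⟨F, hF, hq⟩ : (p.1.2, p.2.2) ∈ ⋃₀ 𝓨.ent := 𝓨.sUnion_eq ▸ mem_univ _
    exact ⟨_, ⟨E, hE, F, hF, subset_rfl⟩, hp, hq⟩

/-- `f` is eventually macrouniform: for every entourage `E` there is a bounded set `B` with
`sup {diam f(E[x]) : x ∉ B} < ∞`. -/
def Ballean.Emu {X : Type*} (𝓧 : Ballean X) (f : X → ℝ) : Prop :=
  ∀ E ∈ 𝓧.ent, ∃ B, 𝓧.Bdd B ∧ (⨆ x ∈ Bᶜ, Metric.ediam (f '' ball E x)) < ⊤

/-- Every eventually macrouniform real function is bounded outside some bounded set. -/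
def Ballean.EmuBounded {X : Type*} (𝓧 : Ballean X) : Prop :=
  ∀ f : X → ℝ, 𝓧.Emu f → ∃ B, 𝓧.Bdd B ∧ Bornology.IsBounded (f '' Bᶜ)

theorem Ballean.Bdd.mono {X : Type*} {𝓧 : Ballean X} {s t : Set X} (ht : 𝓧.Bdd t)
    (h : s ⊆ t) : 𝓧.Bdd s := by
  obtain ⟨E, hE, x, hx⟩ := ht
  exact ⟨E, hE, x, h.trans hx⟩

theorem Ballean.Bdd.union {X : Type*} {𝓧 : Ballean X} {s t : Set X} (hs : 𝓧.Bdd s)
    (ht : 𝓧.Bdd t) : 𝓧.Bdd (s ∪ t) := by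
  obtain ⟨E, hE, x, hx⟩ := hs
  obtain ⟨F, hF, y, hy⟩ := ht
  obtain ⟨G, hG, hxy⟩ : (x, y) ∈ ⋃₀ 𝓧.ent := 𝓧.sUnion_eq ▸ mem_univ _
  refine ⟨_, 𝓧.union_mem _ hE _ (𝓧.comp_mem _ hG _ hF), x, ?_⟩
  rintro z (hz | hz)
  · exact Or.inl (hx hz)
  · exact Or.inr ⟨y, hxy, hy hz⟩

theorem ediam_iff {X : Type*} (f : X → ℝ) (E : Set (X × X)) (B : Set X) :
    (⨆ x ∈ Bᶜ, Metric.ediam (f '' ball E x)) < ⊤ ↔
      ∃ K, 0 ≤ K ∧ ∀ x ∉ B, ∀ a ∈ ball E x, ∀ b ∈ ball E x, |f a - f b| ≤ K := by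
  constructor
  · intro h
    refine ⟨_, ENNReal.toReal_nonneg (a := ⨆ x ∈ Bᶜ, Metric.ediam (f '' ball E x)),
      fun x hx a ha b hb => ?_⟩
    have h1 : edist (f a) (f b) ≤ ⨆ x ∈ Bᶜ, Metric.ediam (f '' ball E x) :=
      (Metric.edist_le_ediam_of_mem (mem_image_of_mem f ha) (mem_image_of_mem f hb)).trans
        (le_iSup₂ (f := fun x (_ : x ∈ Bᶜ) => Metric.ediam (f '' ball E x)) x hx)
    have h2 := ENNReal.toReal_mono h.ne h1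
    rwa [← dist_edist, Real.dist_eq] at h2
  · rintro ⟨K, -, h⟩
    refine lt_of_le_of_lt (b := ENNReal.ofReal K) (iSup₂_le fun x hx => ?_) ENNReal.ofReal_lt_top
    refine Metric.ediam_le ?_
    rintro _ ⟨a, ha, rfl⟩ _ ⟨b, hb, rfl⟩
    rw [edist_dist, Real.dist_eq]
    exact ENNReal.ofReal_le_ofReal (h x hx a ha b hb)

theorem isBounded_iff {X : Type*} (f : X → ℝ) (B : Set X) :
    Bornology.IsBounded (f '' Bᶜ) ↔ ∃ M, ∀ x ∉ B, |f x| ≤ M := by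
  rw [isBounded_iff_forall_norm_le]
  constructor
  · rintro ⟨M, hM⟩
    exact ⟨M, fun x hx => hM _ (mem_image_of_mem f hx)⟩
  · rintro ⟨M, hM⟩
    exact ⟨M, by rintro _ ⟨x, hx, rfl⟩; exact hM x hx⟩

theorem side {X Y : Type*} (𝓧 : Ballean X) (𝓨 : Ballean Y) (hX : 𝓧.EmuBounded)
    (f : X → Y → ℝ)
    (hf : ∀ E ∈ 𝓧.ent, ∃ B C, 𝓧.Bdd B ∧ 𝓨.Bdd C ∧ ∃ K, 0 ≤ K ∧ ∀ x y, (x ∉ B ∨ y ∉ C) →
      ∀ a ∈ ball E x, ∀ b ∈ ball E x, |f a y - f b y| ≤ K) :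
    Side f 𝓧.Bdd 𝓨.Bdd := by
  refine ⟨Ballean.Bdd.mono, Ballean.Bdd.union, ?_, ?_⟩
  · intro g hg
    obtain ⟨B, hB, hb⟩ := hX g (by
      intro E hE
      obtain ⟨B, C, hB, -, K, hK, h⟩ := hf E hE
      exact ⟨B, hB, (ediam_iff g E B).2 ⟨K, hK, fun x hx a ha b hb =>
        hg K a b hK (fun y => h x y (Or.inl hx) a ha b hb)⟩⟩)
    exact ⟨B, hB, (isBounded_iff g B).1 hb⟩
  · rintro B ⟨E, hE, x₀, hx₀⟩
    obtain ⟨_, C, -, hC, K, -, h⟩ := hf E hE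
    exact ⟨C, hC, K, fun y hy a ha b hb => h x₀ y (Or.inr hy) a (hx₀ ha) b (hx₀ hb)⟩

/-- The product of two emu-bounded balleans is emu-bounded. -/
theorem result {X Y : Type*} (𝓧 : Ballean X) (𝓨 : Ballean Y)
    (hX : 𝓧.EmuBounded) (hY : 𝓨.EmuBounded) : (𝓧.prod 𝓨).EmuBounded := by
  intro f hf
  have key : ∀ E ∈ 𝓧.ent, ∀ F ∈ 𝓨.ent, ∃ B C, 𝓧.Bdd B ∧ 𝓨.Bdd C ∧ ∃ K, 0 ≤ K ∧
      ∀ x y, (x ∉ B ∨ y ∉ C) → ∀ a ∈ ball E x, ∀ a' ∈ ball F y, ∀ b ∈ ball E x,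
        ∀ b' ∈ ball F y, |f (a, a') - f (b, b')| ≤ K := by
    intro E hE F hF
    obtain ⟨D, ⟨G, ⟨E', hE', F', hF', hG⟩, z, hz⟩, hD⟩ :=
      hf {p : (X × Y) × (X × Y) | (p.1.1, p.2.1) ∈ E ∧ (p.1.2, p.2.2) ∈ F}
        ⟨E, hE, F, hF, subset_rfl⟩
    obtain ⟨K, hK, h⟩ := (ediam_iff f _ D).1 hD
    refine ⟨ball E' z.1, ball F' z.2, ⟨E', hE', z.1, subset_rfl⟩, ⟨F', hF', z.2, subset_rfl⟩,
      K, hK, fun x y hxy a ha a' ha' b hb b' hb' => ?_⟩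
    refine h (x, y) (fun hD' => ?_) (a, a') ⟨ha, ha'⟩ (b, b') ⟨hb, hb'⟩
    have := hG (hz hD')
    exact hxy.elim (fun h1 => h1 this.1) (fun h2 => h2 this.2)
  have sX : Side (fun x y => f (x, y)) 𝓧.Bdd 𝓨.Bdd := side 𝓧 𝓨 hX _ (by
    intro E hE
    obtain ⟨B, C, hB, hC, K, hK, h⟩ := key E hE _ 𝓨.diag_mem
    exact ⟨B, C, hB, hC, K, hK, fun x y hxy a ha b hb => h x y hxy a ha y rfl b hb y rfl⟩)
  have sY : Side (fun y x => f (x, y)) 𝓨.Bdd 𝓧.Bdd := side 𝓨 𝓧 hY _ (by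
    intro F hF
    obtain ⟨B, C, hB, hC, K, hK, h⟩ := key _ 𝓧.diag_mem F hF
    exact ⟨C, B, hC, hB, K, hK, fun y x hxy a ha b hb =>
      h x y hxy.symm x rfl a ha x rfl b hb⟩)
  obtain ⟨_, _, ⟨_, _, x₀, _⟩, ⟨_, _, y₀, _⟩, -⟩ := key _ 𝓧.diag_mem _ 𝓨.diag_mem
  have : Nonempty X := ⟨x₀⟩
  have : Nonempty Y := ⟨y₀⟩
  obtain ⟨B, ⟨E, hE, x₁, hB⟩, M, hM⟩ := sX.main sY
  obtain ⟨C, ⟨F, hF, y₁, hC⟩, M', hM'⟩ := sY.main (f := fun y x => f (x, y)) sX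
  refine ⟨B ×ˢ C, ⟨_, ⟨E, hE, F, hF, subset_rfl⟩, (x₁, y₁), fun p hp => ⟨hB hp.1, hC hp.2⟩⟩,
    (isBounded_iff f _).2 ⟨max M M', fun p hp => ?_⟩⟩
  by_cases h1 : p.1 ∈ B
  · exact (hM' p.2 (fun h2 => hp ⟨h1, h2⟩) p.1).trans (le_max_right _ _)
  · exact (hM p.1 h1 p.2).trans (le_max_left _ _)

end Pool.Agent.Results.MP_da2089_gt.ProdEmuBounded
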